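import Pool.Agent.TH128.KZ.Grp
import Pool.Agent.TH128.KS.Grp
import Pool.Agent.TH128.GZ.Final

/-!
# The two statements for a finite family
-/

set_option autoImplicit false
set_option linter.unusedSectionVars false

open Module Matrix

namespace Pool.Agent.TH128.KZ

open Pool.Agent.TH164.Spin Pool.Agent.TH119.MX Pool.Agent.TH164.A1
open Pool.Agent.TH128.KS (Blk)

variable {J : Type} [Fintype J] [DecidableEq J] {n : J → ℕ} {N : J → Type}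
  [∀ j, Fintype (N j)] [∀ j, DecidableEq (N j)] [∀ j, Nonempty (N j)]
variable {B D : Type} [Fintype B] [DecidableEq B]
variable {Γ : ∀ j, Fin (n j) → Matrix (N j) (N j) ℂ}

theorem gl_inv {R : Type} [Fintype R] [DecidableEq R] (x : GL R ℂ) : x.val * (x⁻¹).val = 1 := by
  rw [← Units.val_mul, mul_inv_cancel, Units.val_one]

theorem inv_gl {R : Type} [Fintype R] [DecidableEq R] (x : GL R ℂ) : (x⁻¹).val * x.val = 1 := by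
  rw [← Units.val_mul, inv_mul_cancel, Units.val_one]

theorem card_fin [DecidableEq D] (hcl : ∀ j, Cl (Γ j)) (h3 : ∀ j, 3 ≤ n j) (h4 : ∀ j, n j ≠ 4)
    (h5 : ∀ j, n j ≠ 5) (h8 : ∀ i j, i ≠ j → ¬(n i = 8 ∧ n j = 8))
    (hΓ : ∀ j i a b, IsAlgebraic ℚ (Γ j i a b)) {c : ℂ} (hc : c ≠ 0) {u : ∀ j, GL (N j) ℂ}
    (hu : ∀ j, u j ∈ SpG (Γ j)) (hW : Wu Γ fun j => c • (u j).val)
    {deg : B → D} {Q : GL B ℂ}
    (hexc : ∀ j, Exc (Γ j) (u j).val ((u j)⁻¹).val deg Q.val (Q⁻¹).val) :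
    ∑ j, n j * (n j - 1) ≤ 2 * Fintype.card {p : B × B // deg p.1 = deg p.2} :=
  exc_card hcl h3 h4 h5 h8 hΓ hc (fun j => gl_inv (u j)) (fun j => inv_gl (u j))
    (fun j => ((SpG_QS (hcl j) (hΓ j) (hu j)).1).2.2) hW hexc

theorem main_fin (hcl : ∀ j, Cl (Γ j)) (h3 : ∀ j, 3 ≤ n j) (h4 : ∀ j, n j ≠ 4)
    (h5 : ∀ j, n j ≠ 5) (h8 : ∀ i j, i ≠ j → ¬(n i = 8 ∧ n j = 8))
    (hΓ : ∀ j i a b, IsAlgebraic ℚ (Γ j i a b)) {c : ℂ} (hc : c ≠ 0) {u : ∀ j, GL (N j) ℂ}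
    (hu : ∀ j, u j ∈ SpG (Γ j)) (hW : Wu Γ fun j => c • (u j).val)
    {deg : B → D} {Q : GL B ℂ} (hQ : Blk deg Q.val)
    (hne : ∀ j, ¬ Exc (Γ j) (u j).val ((u j)⁻¹).val deg Q.val (Q⁻¹).val)
    {H : Subgroup (GL ((Σ j, N j) ⊕ B) ℂ)}
    (hH : ∃ I : Set (MvPolynomial (((Σ j, N j) ⊕ B) × ((Σ j, N j) ⊕ B)) ℂ),
      (∀ p ∈ I, ∀ m, IsAlgebraic ℚ (p.coeff m)) ∧ ∀ g : GL ((Σ j, N j) ⊕ B) ℂ, g ∈ H ↔
        ∀ p ∈ I, MvPolynomial.eval (fun b => g.val b.1 b.2) p = 0)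
    {A : Matrix ((Σ j, N j) ⊕ B) ((Σ j, N j) ⊕ B) ℂ} (hA : ∀ i j, IsAlgebraic ℚ (A i j))
    {g₁ : GL ((Σ j, N j) ⊕ B) ℂ} (hg₁ : g₁ ∈ H)
    (hPA : g₁.val = fromBlocks (c • bd fun j => (u j).val) 0 0 Q.val * A)
    {g : ∀ j, GL (N j) ℂ} (hg : ∀ j, g j ∈ SpG (Γ j)) :
    ∃ x ∈ H, x.val = fromBlocks (bd fun j => (g j).val) 0 0 (1 : Matrix B B ℂ) := by
  have hA0 : A.det ≠ 0 := by
    have h6 := (Matrix.isUnit_iff_isUnit_det _).1 g₁.isUnit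
    rw [hPA, det_mul, isUnit_iff_ne_zero] at h6
    exact right_ne_zero_of_mul h6
  have hA1 : A * A⁻¹ = 1 := Matrix.mul_nonsing_inv _ (isUnit_iff_ne_zero.2 hA0)
  have hHal : AlgGrp QA (carr H) := by
    refine algGrp_carr ?_
    obtain ⟨I, h6, h7⟩ := hH
    exact ⟨I, fun p hp m => mem_QA.2 (h6 p hp m), h7⟩
  have hQS := fun j => (SpG_QS (hcl j) (hΓ j) (hu j)).1
  refine all_mem (Γ := Γ) (fun j x hx => ?_) hg
  refine spin_mem hHal (hcl j) (h3 j) ?_ hx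
  exact stab_all hcl h3 h4 h5 h8 hΓ hHal hc (fun j => gl_inv (u j)) (fun j => inv_gl (u j))
    (fun j => (hQS j).2.2) (fun j => (hQS j).2.1) hW (gl_inv Q) (inv_gl Q) hQ
    (Pool.Agent.TH128.KS.Blk.inv hQ (gl_inv Q) (inv_gl Q)) hA1
    (inv_mem_entries fun i j => mem_QA.2 (hA i j)) ⟨g₁, hg₁, hPA⟩ (hne j)

end Pool.Agent.TH128.KZ
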