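import Pool.Agent.TH164.Spin.Pr7
import Pool.Agent.TH128.KS.Gour

/-!
# Lie algebras of pairs: families of spin representations and an arbitrary object
-/

set_option autoImplicit false
set_option linter.unusedSectionVars false

open Module Matrix

namespace Pool.Agent.TH128.KZ

open Pool.Agent.TH164.Spin Pool.Agent.TH119.MX Pool.Agent.TH164.A1

variable {J : Type} [Fintype J] [DecidableEq J] {n : J → ℕ} {N : J → Type}
  [∀ j, Fintype (N j)] [∀ j, DecidableEq (N j)] [∀ j, Nonempty (N j)]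
variable {B D : Type} [Fintype B] [DecidableEq B]
variable {Γ : ∀ j, Fin (n j) → Matrix (N j) (N j) ℂ}

/-- The linear relations with algebraic coefficients are those of the even Clifford algebras. -/
def Wu (Γ : ∀ j, Fin (n j) → Matrix (N j) (N j) ℂ) (P : ∀ j, Matrix (N j) (N j) ℂ) : Prop :=
  ∀ C : ∀ j, Matrix (N j) (N j) ℂ, (∀ j a b, IsAlgebraic ℚ (C j a b)) →
    ∑ j, ∑ a, ∑ b, C j a b * P j a b = 0 →
    ∀ j, ∀ x ∈ Ev (Γ j), ∑ a, ∑ b, C j a b * x a b = 0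

theorem log_eq {c : ℂ} (hc : c ≠ 0) (u u' : ∀ j, Matrix (N j) (N j) ℂ)
    (hu : ∀ j, u j * u' j = 1) (δ : Derivation ℚ ℂ ℂ) :
    (c • bd u).map δ * (c⁻¹ • bd u') =
      bd (fun j => (u j).map δ * u' j) + (δ c * c⁻¹) • 1 := by
  have e1 : (c • bd u).map δ = c • bd (fun j => (u j).map δ) + δ c • bd u := by
    rw [map_smul_der, bd_map, add_comm]
  have e2 : (fun j => (u j).map δ) * u' = (fun j => (u j).map δ * u' j) := rfl
  have e3 : u * u' = (1 : ∀ j, Matrix (N j) (N j) ℂ) := funext fun j => hu j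
  rw [e1, Matrix.add_mul, Matrix.smul_mul, Matrix.mul_smul, ← map_mul, e2, smul_smul,
    mul_inv_cancel₀ hc, one_smul, Matrix.smul_mul, Matrix.mul_smul, ← map_mul, e3, smul_smul,
    map_one]

/-- The block diagonal matrices up to common scalars. -/
def up (l : Submodule ℂ (∀ j, Matrix (N j) (N j) ℂ)) :
    Submodule ℂ (Matrix (Σ j, N j) (Σ j, N j) ℂ) where
  carrier := {X | ∃ x ∈ l, ∃ s : ℂ, X = bd x + s • 1}
  zero_mem' := ⟨0, l.zero_mem, 0, by rw [map_zero, zero_smul, add_zero]⟩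
  add_mem' := by
    rintro _ _ ⟨x, hx, s, rfl⟩ ⟨y, hy, t, rfl⟩
    refine ⟨x + y, l.add_mem hx hy, s + t, ?_⟩
    rw [map_add, add_smul]
    abel
  smul_mem' := by
    rintro a _ ⟨x, hx, s, rfl⟩
    refine ⟨a • x, l.smul_mem a hx, a * s, ?_⟩
    rw [map_smul, smul_add, smul_smul]

/-- **The projection is everything.** -/
theorem full (hcl : ∀ j, Cl (Γ j)) (h3 : ∀ j, 3 ≤ n j) (h4 : ∀ j, n j ≠ 4) (h5 : ∀ j, n j ≠ 5)
    (h8 : ∀ i j, i ≠ j → ¬(n i = 8 ∧ n j = 8)) (hΓ : ∀ j i a b, IsAlgebraic ℚ (Γ j i a b))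
    {c : ℂ} (hc : c ≠ 0) {u u' : ∀ j, Matrix (N j) (N j) ℂ} (hu : ∀ j, u j * u' j = 1)
    (hu' : ∀ j, u' j * u j = 1) (hE : ∀ j, u j ∈ Ev (Γ j)) (hW : Wu Γ fun j => c • u j)
    {l : Submodule ℂ (∀ j, Matrix (N j) (N j) ℂ)} (hle : ∀ x ∈ l, ∀ j, x j ∈ La (Γ j))
    (hbr : ∀ x ∈ l, ∀ y ∈ l, x * y - y * x ∈ l)
    (hder : ∀ δ : Derivation ℚ ℂ ℂ, ∀ x ∈ l, (fun j => (x j).map δ) ∈ l)
    (hlog : ∀ δ : Derivation ℚ ℂ ℂ, (fun j => (u j).map δ * u' j) ∈ l) :
    ∀ x : ∀ j, Matrix (N j) (N j) ℂ, (∀ j, x j ∈ La (Γ j)) → x ∈ l := by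
  rcases isEmpty_or_nonempty J with hJ | hJ
  · intro x _
    have h1 : x = 0 := funext fun j => isEmptyElim j
    rw [h1]
    exact l.zero_mem
  have e1 : (c • bd u) * (c⁻¹ • bd u') = 1 := by
    rw [Matrix.smul_mul, Matrix.mul_smul, smul_smul, mul_inv_cancel₀ hc, one_smul, ← map_mul]
    have h1 : u * u' = (1 : ∀ j, Matrix (N j) (N j) ℂ) := funext fun j => hu j
    rw [h1, map_one]
  have e2 : (c⁻¹ • bd u') * (c • bd u) = 1 := by
    rw [Matrix.smul_mul, Matrix.mul_smul, smul_smul, inv_mul_cancel₀ hc, one_smul, ← map_mul]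
    have h1 : u' * u = (1 : ∀ j, Matrix (N j) (N j) ℂ) := funext fun j => hu' j
    rw [h1, map_one]
  have hgen := adjoin_ge (Eb Γ) (up l) (A := 1) (A' := 1) e1 e2 (by
      rintro δ _ ⟨x, hx, rfl⟩
      exact ⟨_, fun j => Ev_der (hΓ j) δ (hx j), bd_map δ x⟩) (by
      rintro δ _ ⟨x, hx, s, rfl⟩
      refine ⟨_, hder δ x hx, δ s, ?_⟩
      have hadd : ∀ A B : Matrix (Σ j, N j) (Σ j, N j) ℂ, (A + B).map δ = A.map δ + B.map δ := by
        intro A B
        ext i j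
        exact map_add δ _ _
      rw [hadd, bd_map, map_smul_der, map_one_der, smul_zero, add_zero]) (by
      rintro _ ⟨x, hx, s, rfl⟩
      refine Subalgebra.add_mem _ ⟨x, fun j => La_le_Ev (hle x hx j), rfl⟩ ?_
      exact Subalgebra.smul_mem _ (Subalgebra.one_mem _) _)
    (fun δ => ⟨_, hlog δ, _, log_eq hc u u' hu δ⟩) (Matrix.one_mul 1) (by
      intro i j
      rw [Matrix.one_apply]
      split_ifs
      · exact isAlgebraic_one
      · exact isAlgebraic_zero) (by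
      rw [Matrix.mul_one]
      exact Subalgebra.smul_mem (Eb Γ) ⟨u, hE, rfl⟩ c) (by
      rintro W hWa h1 _ ⟨x, hx, rfl⟩
      rw [Matrix.mul_one]
      rw [bd_sum (fun q => W q.1 q.2) x]
      have h6 := hW (fun j => Matrix.of fun a b => W ⟨j, a⟩ ⟨j, b⟩) (fun j a b => hWa _ _) (by
        rw [← map_smul, bd_sum (fun q => W q.1 q.2) (c • u)] at h1
        exact h1)
      exact Finset.sum_eq_zero fun j _ => h6 j (x j) (hx j))
  refine spinP hcl h3 h4 h5 h8 hle hbr ?_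
  intro j X hX
  have h1 : Algebra.adjoin ℂ (up l : Set (Matrix (Σ j, N j) (Σ j, N j) ℂ)) ≤
      (Algebra.adjoin ℂ (l : Set (∀ j, Matrix (N j) (N j) ℂ))).map bd := by
    refine Algebra.adjoin_le ?_
    rintro _ ⟨y, hy, s, rfl⟩
    refine ⟨y + s • 1, ?_, ?_⟩
    · exact Subalgebra.add_mem _ (Algebra.subset_adjoin hy)
        (Subalgebra.smul_mem _ (Subalgebra.one_mem _) _)
    · change bd (y + s • 1) = _
      rw [map_add, map_smul, map_one]
  have h2 : bd (Pi.single j X) ∈ Eb Γ := by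
    refine ⟨Pi.single j X, fun i => ?_, rfl⟩
    by_cases hij : i = j
    · subst hij
      rw [Pi.single_eq_same]
      exact hX
    · rw [Pi.single_eq_of_ne hij]
      exact Subalgebra.zero_mem _
  obtain ⟨z, hz, hzX⟩ := h1 (hgen h2)
  have h6 : z = Pi.single j X := bd_inj hzX
  rw [← h6]
  exact hz

section exc

variable {N₁ : Type} [Fintype N₁] [DecidableEq N₁] {n₁ : ℕ}

/-- The spin representation depends on the object with the period matrix `Q`: there is a Lie algebra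
of pairs, stable under the derivations of the complex numbers, which contains the logarithmic
derivatives of both period matrices, in which the second component determines the first one. -/
def Exc (Γ : Fin n₁ → Matrix N₁ N₁ ℂ) (u u' : Matrix N₁ N₁ ℂ) (deg : B → D)
    (Q Q' : Matrix B B ℂ) : Prop :=
  ∃ L : Submodule ℂ (Matrix N₁ N₁ ℂ × Matrix B B ℂ),
    (∀ p ∈ L, p.1 ∈ La Γ ∧ Pool.Agent.TH128.KS.Blk deg p.2) ∧
    (∀ p ∈ L, ∀ q ∈ L, p * q - q * p ∈ L) ∧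
    (∀ δ : Derivation ℚ ℂ ℂ, ∀ p ∈ L, (p.1.map δ, p.2.map δ) ∈ L) ∧
    (∀ δ : Derivation ℚ ℂ ℂ, (u.map δ * u', Q.map δ * Q') ∈ L) ∧
    ∀ p ∈ L, p.2 = 0 → p.1 = 0

end exc

/-- The coordinates of a block matrix. -/
def co (deg : B → D) : Matrix B B ℂ →ₗ[ℂ] ({p : B × B // deg p.1 = deg p.2} → ℂ) where
  toFun z p := z p.1.1 p.1.2
  map_add' _ _ := rfl
  map_smul' _ _ := rfl

theorem co_inj {deg : B → D} {z : Matrix B B ℂ} (hz : Pool.Agent.TH128.KS.Blk deg z)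
    (h : co deg z = 0) : z = 0 := by
  ext a b
  by_cases hab : deg a = deg b
  · exact congrFun h ⟨(a, b), hab⟩
  · exact hz a b hab

/-- **The bound.** -/
theorem exc_card [DecidableEq D] (hcl : ∀ j, Cl (Γ j)) (h3 : ∀ j, 3 ≤ n j) (h4 : ∀ j, n j ≠ 4)
    (h5 : ∀ j, n j ≠ 5) (h8 : ∀ i j, i ≠ j → ¬(n i = 8 ∧ n j = 8))
    (hΓ : ∀ j i a b, IsAlgebraic ℚ (Γ j i a b))
    {c : ℂ} (hc : c ≠ 0) {u u' : ∀ j, Matrix (N j) (N j) ℂ} (hu : ∀ j, u j * u' j = 1)
    (hu' : ∀ j, u' j * u j = 1) (hE : ∀ j, u j ∈ Ev (Γ j)) (hW : Wu Γ fun j => c • u j)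
    {deg : B → D} {Q Q' : Matrix B B ℂ} (hexc : ∀ j, Exc (Γ j) (u j) (u' j) deg Q Q') :
    ∑ j, n j * (n j - 1) ≤ 2 * Fintype.card {p : B × B // deg p.1 = deg p.2} := by
  rcases isEmpty_or_nonempty J with hJ | hJ
  · rw [Fintype.sum_empty]
    exact Nat.zero_le _
  choose L h1 hbr hder hlog hinj using hexc
  let LL : Submodule ℂ ((∀ j, Matrix (N j) (N j) ℂ) × Matrix B B ℂ) :=
    { carrier := {p | ∀ j, (p.1 j, p.2) ∈ L j}
      zero_mem' := fun j => (L j).zero_mem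
      add_mem' := fun hp hq j => (L j).add_mem (hp j) (hq j)
      smul_mem' := fun a p hp j => (L j).smul_mem a (hp j) }
  have hmem : ∀ p, p ∈ LL ↔ ∀ j, (p.1 j, p.2) ∈ L j := fun p => Iff.rfl
  have hfull := full hcl h3 h4 h5 h8 hΓ hc hu hu' hE hW
    (l := LL.map (LinearMap.fst ℂ _ _)) (by
      rintro _ ⟨p, hp, rfl⟩ j
      exact (h1 j _ (hp j)).1) (by
      rintro _ ⟨p, hp, rfl⟩ _ ⟨q, hq, rfl⟩
      exact ⟨p * q - q * p, fun j => hbr j _ (hp j) _ (hq j), rfl⟩) (by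
      rintro δ _ ⟨p, hp, rfl⟩
      exact ⟨((fun j => (p.1 j).map δ), p.2.map δ), fun j => hder j δ _ (hp j), rfl⟩)
    (fun δ => ⟨((fun j => (u j).map δ * u' j), Q.map δ * Q'), fun j => hlog j δ, rfl⟩)
  have hblk : ∀ p ∈ LL, Pool.Agent.TH128.KS.Blk deg p.2 := fun p hp =>
    (h1 (Classical.arbitrary J) _ (hp _)).2
  -- the two maps
  have a1 : finrank ℂ LL ≤ Fintype.card {p : B × B // deg p.1 = deg p.2} := by
    have h6 := LinearMap.finrank_le_finrank_of_injective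
      (f := ((co deg) ∘ₗ (LinearMap.snd ℂ _ _)) ∘ₗ LL.subtype) (by
      rw [← LinearMap.ker_eq_bot, LinearMap.ker_eq_bot']
      rintro ⟨p, hp⟩ h7
      have h8' : p.2 = 0 := co_inj (hblk p hp) h7
      have h9 : p.1 = 0 := by
        funext j
        exact hinj j _ (hp j) h8'
      exact Subtype.ext (Prod.ext h9 h8'))
    rwa [Module.finrank_fintype_fun_eq_card] at h6
  have a2 : finrank ℂ (∀ j, La (Γ j)) ≤ finrank ℂ LL := by
    refine LinearMap.finrank_le_finrank_of_surjective (f :=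
      (LinearMap.pi fun j => LinearMap.codRestrict (La (Γ j))
        ((LinearMap.proj j ∘ₗ LinearMap.fst ℂ _ _) ∘ₗ LL.subtype)
        (fun p => (h1 j _ (p.2 j)).1))) ?_
    intro x
    obtain ⟨p, hp, hpx⟩ := hfull (fun j => (x j : Matrix (N j) (N j) ℂ)) fun j => (x j).2
    refine ⟨⟨p, hp⟩, ?_⟩
    funext j
    exact Subtype.ext (congrFun hpx j)
  rw [Module.finrank_pi_fintype] at a2
  have a3 : ∑ j, n j * (n j - 1) ≤ ∑ j, 2 * finrank ℂ (La (Γ j)) :=
    Finset.sum_le_sum fun j _ => Pool.Agent.TH128.KS.le_finrank (hcl j)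
  rw [← Finset.mul_sum] at a3
  omega

end Pool.Agent.TH128.KZ
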