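import Pool.Agent.TH128.KZ.Stab

/-!
# The products of the spin groups
-/

set_option autoImplicit false
set_option linter.unusedSectionVars false

open Module Matrix

namespace Pool.Agent.TH128.KZ

open Pool.Agent.TH164.Spin Pool.Agent.TH119.MX Pool.Agent.TH164.A1

variable {J : Type} [Fintype J] [DecidableEq J] {n : J → ℕ} {N : J → Type}
  [∀ j, Fintype (N j)] [∀ j, DecidableEq (N j)] [∀ j, Nonempty (N j)]
variable {B : Type} [Fintype B] [DecidableEq B]
variable {Γ : ∀ j, Fin (n j) → Matrix (N j) (N j) ℂ}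

/-- A matrix in one block, and the identity in the other ones. -/
def Mb (B : Type) [Fintype B] [DecidableEq B] (j : J) (g : Matrix (N j) (N j) ℂ) :
    Matrix ((Σ j, N j) ⊕ B) ((Σ j, N j) ⊕ B) ℂ :=
  fromBlocks (bd (Pi.mulSingle j g)) 0 0 1

theorem Mb_mul (j : J) (g h : Matrix (N j) (N j) ℂ) : Mb B j (g * h) = Mb B j g * Mb B j h := by
  unfold Mb
  rw [blocks_mul, Matrix.one_mul, Pi.mulSingle_mul, map_mul]

theorem Mb_one (j : J) : Mb B j (1 : Matrix (N j) (N j) ℂ) = 1 := by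
  unfold Mb
  rw [Pi.mulSingle_one, map_one, fromBlocks_one]

theorem Mb_add (j : J) (X : Matrix (N j) (N j) ℂ) : Mb B j (1 + X) =
    1 + (1 : ℂ) • fromBlocks (bd (Pi.single j X)) 0 0 (0 : Matrix B B ℂ) := by
  unfold Mb
  rw [one_smul, ← fromBlocks_one, fromBlocks_add, add_zero, add_zero, add_zero,
    ← map_one (bd (N := N)), ← map_add]
  congr 2
  funext i
  by_cases hij : i = j
  · subst hij
    rw [Pi.mulSingle_eq_same, Pi.add_apply, Pi.one_apply, Pi.single_eq_same]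
  · rw [Pi.mulSingle_eq_of_ne hij, Pi.add_apply, Pi.one_apply, Pi.single_eq_of_ne hij, add_zero]

variable {H : Subgroup (GL ((Σ j, N j) ⊕ B) ℂ)}

theorem Mb_unip {H : Set (Matrix ((Σ j, N j) ⊕ B) ((Σ j, N j) ⊕ B) ℂ)} {j : J}
    (hst : ∀ Z ∈ La (Γ j), ∀ d, Stab H d (fromBlocks (bd (Pi.single j Z)) 0 0
      (0 : Matrix B B ℂ))) {X : Matrix (N j) (N j) ℂ} (hX : X ∈ La (Γ j)) (hXX : X * X = 0) :
    Pres H (Mb B j (1 + X)) := by
  rw [Mb_add]
  refine pres_of_stab (ε := 0) ?_ (fun d => hst X hX d) 1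
  rw [blocks_mul, Matrix.mul_zero, ← map_mul, ← Pi.single_mul, hXX, Pi.single_zero, map_zero,
    fromBlocks_zero, zero_smul]

theorem spin_mem (hH : AlgGrp QA (carr H)) {j : J} (h : Cl (Γ j)) (h3 : 3 ≤ n j)
    (hst : ∀ Z ∈ La (Γ j), ∀ d, Stab (carr H) d (fromBlocks (bd (Pi.single j Z)) 0 0
      (0 : Matrix B B ℂ))) {g : GL (N j) ℂ} (hg : g ∈ SpG (Γ j)) :
    ∃ x ∈ H, x.val = Mb B j g.val := by
  induction hg using Subgroup.closure_induction with
  | mem x hx =>
    obtain ⟨t, ht, s, hs, htt, hss, hx⟩ := hx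
    have h1 := pres_unit (M := Mb B j) h h3 (fun a b => Mb_mul j a b)
      (fun X hX hXX => Mb_unip hst hX hXX) ht hs ((sq_bq h ht).1 htt) ((sq_bq h hs).1 hss)
    have e1 : t * s * (s * t) = 1 := by
      calc t * s * (s * t) = t * (s * s) * t := by simp only [Matrix.mul_assoc]
        _ = 1 := by rw [hss, Matrix.mul_one, htt]
    have e2 : s * t * (t * s) = 1 := by
      calc s * t * (t * s) = s * (t * t) * s := by simp only [Matrix.mul_assoc]
        _ = 1 := by rw [htt, Matrix.mul_one, hss]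
    obtain ⟨y, hy1, hy2⟩ := hH.mem_of_pres h1 (g' := Mb B j (s * t))
      (by rw [← Mb_mul, e1, Mb_one]) (by rw [← Mb_mul, e2, Mb_one])
    exact ⟨y, hy1, by rw [hx]; exact hy2⟩
  | one => exact ⟨1, one_mem H, by rw [Units.val_one, Units.val_one, Mb_one]⟩
  | mul g g' _ _ hg hg' =>
    obtain ⟨x, hx, hx'⟩ := hg
    obtain ⟨y, hy, hy'⟩ := hg'
    exact ⟨x * y, mul_mem hx hy, by rw [Units.val_mul, hx', hy', ← Mb_mul, Units.val_mul]⟩
  | inv g _ hg =>
    obtain ⟨x, hx, hx'⟩ := hg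
    refine ⟨x⁻¹, inv_mem hx, ?_⟩
    have h1 : x.val * Mb B j (g⁻¹).val = 1 := by
      rw [hx', ← Mb_mul, vi, Mb_one]
    calc (x⁻¹).val = (x⁻¹).val * (x.val * Mb B j (g⁻¹).val) := by rw [h1, Matrix.mul_one]
      _ = _ := by
        rw [← Matrix.mul_assoc, ← Units.val_mul, inv_mul_cancel, Units.val_one, Matrix.one_mul]

theorem all_mem (h : ∀ j, ∀ g ∈ SpG (Γ j), ∃ x ∈ H, x.val = Mb B j g.val)
    {g : ∀ j, GL (N j) ℂ} (hg : ∀ j, g j ∈ SpG (Γ j)) :
    ∃ x ∈ H, x.val = fromBlocks (bd fun j => (g j).val) 0 0 (1 : Matrix B B ℂ) := by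
  have h1 : ∀ s : Finset J, ∃ x ∈ H, x.val =
      fromBlocks (bd fun j => if j ∈ s then (g j).val else 1) 0 0 (1 : Matrix B B ℂ) := by
    intro s
    induction s using Finset.induction_on with
    | empty =>
      refine ⟨1, one_mem H, ?_⟩
      have h2 : (fun j => if j ∈ (∅ : Finset J) then (g j).val else 1) =
          (1 : ∀ j, Matrix (N j) (N j) ℂ) := by
        funext j
        rw [if_neg (Finset.notMem_empty j), Pi.one_apply]
      rw [h2, map_one, fromBlocks_one, Units.val_one]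
    | insert i s hi ih =>
      obtain ⟨x, hx, hx'⟩ := ih
      obtain ⟨y, hy, hy'⟩ := h i (g i) (hg i)
      refine ⟨y * x, mul_mem hy hx, ?_⟩
      rw [Units.val_mul, hy', hx', Mb, blocks_mul, Matrix.one_mul, ← map_mul]
      congr 2
      funext j
      rw [Pi.mul_apply]
      by_cases hij : j = i
      · subst hij
        rw [Pi.mulSingle_eq_same, if_neg hi, if_pos (Finset.mem_insert_self j s), mul_one]
      · rw [Pi.mulSingle_eq_of_ne hij, one_mul]
        by_cases hjs : j ∈ s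
        · rw [if_pos hjs, if_pos (Finset.mem_insert_of_mem hjs)]
        · rw [if_neg hjs, if_neg fun h0 => (Finset.mem_insert.1 h0).elim hij hjs]
  obtain ⟨x, hx, hx'⟩ := h1 Finset.univ
  refine ⟨x, hx, ?_⟩
  rw [hx']
  congr 2
  funext j
  rw [if_pos (Finset.mem_univ j)]

end Pool.Agent.TH128.KZ
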