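import Pool.Agent.TH128.KS.Unit

/-!
# Products of two unit vectors, in an abstract block
-/

set_option autoImplicit false
set_option linter.unusedSectionVars false

open Module Matrix

namespace Pool.Agent.TH128.KZ

open Pool.Agent.TH164.Spin Pool.Agent.TH119.MX

variable {N R : Type} [Fintype N] [DecidableEq N] [Nonempty N] [Fintype R] [DecidableEq R]
  {n : ℕ}
variable {Γ : Fin n → Matrix N N ℂ} {H : Set (Matrix R R ℂ)} {M : Matrix N N ℂ → Matrix R R ℂ}

theorem pres_unip (h : Cl Γ) (hM : ∀ X ∈ La Γ, X * X = 0 → Pres H (M (1 + X)))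
    {u v : Matrix N N ℂ} (hu : u ∈ Ts Γ) (hv : v ∈ Ts Γ) (hu1 : bq u u = 1) (hv1 : bq v v = 1)
    (huv : bq u v = 1) : Pres H (M (u * v)) := by
  have huu : u * u = 1 := by rw [h.sq_vec hu, hu1, one_smul]
  have hvv : v * v = 1 := by rw [h.sq_vec hv, hv1, one_smul]
  have hr : v * u = (2 : ℂ) • (1 : Matrix N N ℂ) - u * v := by
    have h1 := h.relT hu hv
    rw [huv, mul_one] at h1
    rw [← h1, add_sub_cancel_left]
  have hsq : u * v * (u * v) = (2 : ℂ) • (u * v) - 1 := by
    calc u * v * (u * v) = u * (v * u) * v := by simp only [Matrix.mul_assoc]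
      _ = (2 : ℂ) • (u * v) - (u * u) * (v * v) := by
        rw [hr, Matrix.mul_sub, Matrix.sub_mul, Matrix.mul_smul, Matrix.mul_one, Matrix.smul_mul]
        simp only [Matrix.mul_assoc]
      _ = _ := by rw [huu, hvv, Matrix.one_mul]
  have hN : (u * v - 1) * (u * v - 1) = 0 := by
    rw [Matrix.sub_mul, Matrix.mul_sub, Matrix.mul_sub, hsq, Matrix.mul_one, Matrix.one_mul,
      Matrix.one_mul]
    module
  have hLa : u * v - 1 ∈ La Γ := by
    have h1 : u * v - 1 = (1 / 2 : ℂ) • (u * v - v * u) := by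
      rw [hr]
      module
    rw [h1]
    exact Submodule.smul_mem _ _ (Submodule.subset_span ⟨u, hu, v, hv, rfl⟩)
  have h2 := hM _ hLa hN
  rwa [add_sub_cancel] at h2

theorem step (h : Cl Γ) (hmul : ∀ a b, M (a * b) = M a * M b) {u v w : Matrix N N ℂ}
    (hw : w ∈ Ts Γ) (hw1 : bq w w = 1) (h1 : Pres H (M (u * w))) (h2 : Pres H (M (w * v))) :
    Pres H (M (u * v)) := by
  have h3 := h1.mul h2
  rw [← hmul] at h3
  have h4 : u * w * (w * v) = u * v := by
    calc u * w * (w * v) = u * (w * w) * v := by simp only [Matrix.mul_assoc]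
      _ = u * v := by rw [h.sq_vec hw, hw1, one_smul, Matrix.mul_one]
  rwa [h4] at h3

theorem pres_ne (h : Cl Γ) (hn : 3 ≤ n)
    (hmul : ∀ a b, M (a * b) = M a * M b) (hM : ∀ X ∈ La Γ, X * X = 0 → Pres H (M (1 + X)))
    {u v : Matrix N N ℂ} (hu : u ∈ Ts Γ) (hv : v ∈ Ts Γ) (hu1 : bq u u = 1) (hv1 : bq v v = 1)
    (huv : bq u v ≠ -1) : Pres H (M (u * v)) := by
  obtain ⟨c, hc⟩ : ∃ c, bq u v = c := ⟨_, rfl⟩
  have hvu : bq v u = c := by rw [Pool.Agent.TH128.KS.bq_symm, hc]
  rw [hc] at huv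
  have hc1 : 1 + c ≠ 0 := fun e => huv (by linear_combination e)
  by_cases hc2 : c = 1
  · rw [hc2] at hc
    exact pres_unip h hM hu hv hu1 hv1 hc
  have hc3 : 1 - c ≠ 0 := fun e => hc2 (by linear_combination -e)
  -- a perpendicular vector
  obtain ⟨z, hz, hz0, hzz⟩ := Pool.Agent.TH128.KS.exists_orth h ![u, v - c • u] (by
      intro i
      fin_cases i
      · exact hu
      · exact Submodule.sub_mem _ hv (Submodule.smul_mem _ _ hu)) (by
      intro i j hij
      fin_cases i <;> fin_cases j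
      · exact absurd rfl hij
      · change bq u (v - c • u) = 0
        rw [map_sub, map_smul, hc, hu1, smul_eq_mul, mul_one, sub_self]
      · change bq (v - c • u) u = 0
        rw [map_sub, map_smul, LinearMap.sub_apply, LinearMap.smul_apply, hvu, hu1, smul_eq_mul,
          mul_one, sub_self]
      · exact absurd rfl hij) (by
      intro i
      fin_cases i
      · change bq u u ≠ 0
        rw [hu1]
        exact one_ne_zero
      · change bq (v - c • u) (v - c • u) ≠ 0
        simp only [map_sub, map_smul, LinearMap.sub_apply, LinearMap.smul_apply, hvu, hu1, hv1,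
          hc, smul_eq_mul]
        intro e
        refine mul_ne_zero hc1 hc3 ?_
        linear_combination e) (by omega)
  have hzu : bq z u = 0 := hz0 0
  have hzv : bq z v = 0 := by
    have h1 : bq z (v - c • u) = 0 := hz0 1
    rw [map_sub, map_smul, hzu, smul_zero, sub_zero] at h1
    exact h1
  have huz : bq u z = 0 := by rw [Pool.Agent.TH128.KS.bq_symm, hzu]
  have hvz : bq v z = 0 := by rw [Pool.Agent.TH128.KS.bq_symm, hzv]
  obtain ⟨g, hg⟩ := IsAlgClosed.exists_pow_nat_eq (-((1 - c) / ((1 + c) * bq z z))) two_pos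
  obtain ⟨w, hw⟩ : ∃ w, w = (1 + c)⁻¹ • (u + v) + g • z := ⟨_, rfl⟩
  have hwT : w ∈ Ts Γ := by
    rw [hw]
    exact Submodule.add_mem _ (Submodule.smul_mem _ _ (Submodule.add_mem _ hu hv))
      (Submodule.smul_mem _ _ hz)
  have hg2 : g ^ 2 * bq z z = -((1 - c) / (1 + c)) := by
    rw [hg]
    field_simp
  have hww : bq w w = 1 := by
    rw [hw]
    simp only [map_add, map_smul, LinearMap.add_apply, LinearMap.smul_apply, hu1, hv1, hc, hvu,
      hzu, hzv, huz, hvz, smul_eq_mul, mul_zero, add_zero, zero_add]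
    have h1 : g * (g * bq z z) = -((1 - c) / (1 + c)) := by
      rw [← hg2]
      ring
    rw [h1]
    field_simp
    ring
  have huw : bq u w = 1 := by
    rw [hw]
    simp only [map_add, map_smul, hu1, hc, huz, smul_eq_mul, mul_zero, add_zero]
    exact inv_mul_cancel₀ hc1
  have hwv : bq w v = 1 := by
    rw [hw]
    simp only [map_add, map_smul, LinearMap.add_apply, LinearMap.smul_apply, hv1, hc, hzv,
      smul_eq_mul, mul_zero, add_zero]
    rw [add_comm c 1]
    exact inv_mul_cancel₀ hc1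
  exact step h hmul hwT hww (pres_unip h hM hu hwT hu1 hww huw) (pres_unip h hM hwT hv hww hv1 hwv)

/-- **The products of two unit vectors.** -/
theorem pres_unit (h : Cl Γ) (hn : 3 ≤ n)
    (hmul : ∀ a b, M (a * b) = M a * M b) (hM : ∀ X ∈ La Γ, X * X = 0 → Pres H (M (1 + X)))
    {u v : Matrix N N ℂ} (hu : u ∈ Ts Γ) (hv : v ∈ Ts Γ) (hu1 : bq u u = 1) (hv1 : bq v v = 1) :
    Pres H (M (u * v)) := by
  obtain ⟨z, hz, hz0, hzz⟩ := Pool.Agent.TH128.KS.exists_orth h ![u] (by
      intro i
      fin_cases i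
      exact hu) (by
      intro i j hij
      fin_cases i
      fin_cases j
      exact absurd rfl hij) (by
      intro i
      fin_cases i
      change bq u u ≠ 0
      rw [hu1]
      exact one_ne_zero) (by omega)
  have hzu : bq z u = 0 := hz0 0
  obtain ⟨r, hr⟩ := IsAlgClosed.exists_pow_nat_eq (bq z z) two_pos
  have hr0 : r ≠ 0 := by
    rintro rfl
    apply hzz
    rw [← hr]
    norm_num
  have key : ∀ s : ℂ, s ^ 2 * bq z z = 1 → bq (s • z) v ≠ -1 →
      Pres H (M (u * v)) := by
    intro s hs hsv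
    have hwT : s • z ∈ Ts Γ := Submodule.smul_mem _ _ hz
    have hww : bq (s • z) (s • z) = 1 := by
      rw [map_smul, map_smul, LinearMap.smul_apply, smul_eq_mul, smul_eq_mul, ← hs]
      ring
    have huw : bq u (s • z) ≠ -1 := by
      rw [map_smul, Pool.Agent.TH128.KS.bq_symm, hzu, smul_zero]
      norm_num
    exact step h hmul hwT hww (pres_ne h hn hmul hM hu hwT hu1 hww huw)
      (pres_ne h hn hmul hM hwT hv hww hv1 hsv)
  by_cases h1 : bq (r⁻¹ • z) v = -1
  · refine key (-r⁻¹) ?_ ?_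
    · rw [neg_sq, inv_pow, hr]
      exact inv_mul_cancel₀ hzz
    · rw [neg_smul, map_neg, LinearMap.neg_apply, h1]
      norm_num
  · refine key r⁻¹ ?_ h1
    rw [inv_pow, hr]
    exact inv_mul_cancel₀ hzz

end Pool.Agent.TH128.KZ
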