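import Pool.Agent.TH128.KZ.Full
import Pool.Agent.TH128.KZ.Unit

/-!
# Algebraic groups which contain the periods of a family of spin representations and of an object
-/

set_option autoImplicit false
set_option linter.unusedSectionVars false

open Module Matrix

namespace Pool.Agent.TH128.KZ

open Pool.Agent.TH164.Spin Pool.Agent.TH119.MX Pool.Agent.TH164.A1
open Pool.Agent.TH128.KS (Blk)

variable {J : Type} [Fintype J] [DecidableEq J] {n : J → ℕ} {N : J → Type}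
  [∀ j, Fintype (N j)] [∀ j, DecidableEq (N j)] [∀ j, Nonempty (N j)]
variable {B D : Type} [Fintype B] [DecidableEq B]
variable {Γ : ∀ j, Fin (n j) → Matrix (N j) (N j) ℂ}
variable {H : Set (Matrix ((Σ j, N j) ⊕ B) ((Σ j, N j) ⊕ B) ℂ)}

/-- The block diagonal matrix. -/
def Fm (x : ∀ j, Matrix (N j) (N j) ℂ) (z : Matrix B B ℂ) (s : ℂ) :
    Matrix ((Σ j, N j) ⊕ B) ((Σ j, N j) ⊕ B) ℂ :=
  fromBlocks (bd x + s • 1) 0 0 z

theorem Fm_add (x y : ∀ j, Matrix (N j) (N j) ℂ) (z w : Matrix B B ℂ) (s t : ℂ) :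
    Fm (x + y) (z + w) (s + t) = Fm x z s + Fm y w t := by
  unfold Fm
  rw [fromBlocks_add, add_zero, add_zero, map_add, add_smul, add_add_add_comm]

theorem Fm_smul (a : ℂ) (x : ∀ j, Matrix (N j) (N j) ℂ) (z : Matrix B B ℂ) (s : ℂ) :
    Fm (a • x) (a • z) (a * s) = a • Fm x z s := by
  unfold Fm
  rw [fromBlocks_smul, smul_zero, smul_zero, map_smul, smul_add, smul_smul]

theorem Fm_zero : Fm (0 : ∀ j, Matrix (N j) (N j) ℂ) (0 : Matrix B B ℂ) 0 = 0 := by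
  unfold Fm
  rw [map_zero, zero_smul, add_zero, fromBlocks_zero]

theorem Fm_br (x y : ∀ j, Matrix (N j) (N j) ℂ) (z w : Matrix B B ℂ) (s t : ℂ) :
    Fm x z s * Fm y w t - Fm y w t * Fm x z s = Fm (x * y - y * x) (z * w - w * z) 0 := by
  unfold Fm
  rw [fromBlocks_multiply, fromBlocks_multiply, sub_eq_add_neg, fromBlocks_neg, fromBlocks_add]
  congr 1
  · rw [map_sub, map_mul, map_mul]
    simp only [Matrix.add_mul, Matrix.mul_add, Matrix.smul_mul, Matrix.mul_smul, Matrix.one_mul,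
      Matrix.mul_one, Matrix.mul_zero, add_zero, zero_smul]
    module
  · simp
  · simp
  · simp [sub_eq_add_neg]

theorem map_add' (δ : Derivation ℚ ℂ ℂ) {R : Type} (X Y : Matrix R R ℂ) :
    (X + Y).map δ = X.map δ + Y.map δ := by
  ext i j
  exact map_add δ _ _

theorem blocks_map {N₁ : Type} (δ : Derivation ℚ ℂ ℂ) (x : Matrix N₁ N₁ ℂ) (y : Matrix B B ℂ) :
    (fromBlocks x 0 0 y).map δ = fromBlocks (x.map δ) 0 0 (y.map δ) := by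
  rw [fromBlocks_map]
  congr 1
  · ext a b
    exact map_zero δ
  · ext a b
    exact map_zero δ

theorem blocks_mul {N₁ : Type} [Fintype N₁] [DecidableEq N₁] (x x' : Matrix N₁ N₁ ℂ)
    (y y' : Matrix B B ℂ) :
    fromBlocks x 0 0 y * fromBlocks x' 0 0 y' = fromBlocks (x * x') 0 0 (y * y') := by
  rw [fromBlocks_multiply]
  simp

theorem Fm_map (δ : Derivation ℚ ℂ ℂ) (x : ∀ j, Matrix (N j) (N j) ℂ) (z : Matrix B B ℂ) (s : ℂ) :
    (Fm x z s).map δ = Fm (fun j => (x j).map δ) (z.map δ) (δ s) := by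
  unfold Fm
  rw [blocks_map, map_add', bd_map, map_smul_der, map_one_der, smul_zero, add_zero]

/-- The Lie algebra of pairs, up to common scalars on the spin representations. -/
def Hs (Γ : ∀ j, Fin (n j) → Matrix (N j) (N j) ℂ) (deg : B → D)
    (H : Set (Matrix ((Σ j, N j) ⊕ B) ((Σ j, N j) ⊕ B) ℂ)) :
    Submodule ℂ ((∀ j, Matrix (N j) (N j) ℂ) × Matrix B B ℂ) where
  carrier := {p | (∀ j, p.1 j ∈ La (Γ j)) ∧ Blk deg p.2 ∧ ∃ s : ℂ, ∀ d, Stab H d (Fm p.1 p.2 s)}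
  zero_mem' := ⟨fun j => Submodule.zero_mem _, fun _ _ _ => rfl, 0, fun d => by
    change Stab H d (Fm 0 0 0)
    rw [Fm_zero]
    exact Stab.zero⟩
  add_mem' := by
    rintro p q ⟨h1, h2, s, h3⟩ ⟨h4, h5, t, h6⟩
    refine ⟨fun j => Submodule.add_mem _ (h1 j) (h4 j), fun a b hab => ?_, s + t, fun d => ?_⟩
    · change p.2 a b + q.2 a b = 0
      rw [h2 a b hab, h5 a b hab, add_zero]
    · change Stab H d (Fm (p.1 + q.1) (p.2 + q.2) (s + t))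
      rw [Fm_add]
      exact (h3 d).add (h6 d)
  smul_mem' := by
    rintro a p ⟨h1, h2, s, h3⟩
    refine ⟨fun j => Submodule.smul_mem _ _ (h1 j), fun b c hbc => ?_, a * s, fun d => ?_⟩
    · change a * p.2 b c = 0
      rw [h2 b c hbc, mul_zero]
    · change Stab H d (Fm (a • p.1) (a • p.2) (a * s))
      rw [Fm_smul]
      exact (h3 d).smul a

theorem mem_Hs {deg : B → D} {p : (∀ j, Matrix (N j) (N j) ℂ) × Matrix B B ℂ} :
    p ∈ Hs Γ deg H ↔ (∀ j, p.1 j ∈ La (Γ j)) ∧ Blk deg p.2 ∧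
      ∃ s : ℂ, ∀ d, Stab H d (Fm p.1 p.2 s) := Iff.rfl

theorem Hs_br {deg : B → D} (hcl : ∀ j, Cl (Γ j))
    {p q : (∀ j, Matrix (N j) (N j) ℂ) × Matrix B B ℂ} (hp : p ∈ Hs Γ deg H)
    (hq : q ∈ Hs Γ deg H) :
    p * q - q * p ∈ Hs Γ deg H ∧ ∀ d, Stab H d (Fm (p.1 * q.1 - q.1 * p.1)
      (p.2 * q.2 - q.2 * p.2) 0) := by
  obtain ⟨h1, h2, s, h3⟩ := hp
  obtain ⟨h4, h5, t, h6⟩ := hq
  have h7 : ∀ d, Stab H d (Fm (p.1 * q.1 - q.1 * p.1) (p.2 * q.2 - q.2 * p.2) 0) := by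
    intro d
    rw [← Fm_br p.1 q.1 p.2 q.2 s t]
    exact (h3 d).comm (h6 d)
  refine ⟨⟨fun j => (hcl j).la_br (h1 j) (h4 j), ?_, 0, h7⟩, h7⟩
  intro a b hab
  change (p.2 * q.2 - q.2 * p.2) a b = 0
  rw [Matrix.sub_apply, Pool.Agent.TH128.KS.Blk.mul h2 h5 a b hab,
    Pool.Agent.TH128.KS.Blk.mul h5 h2 a b hab, sub_zero]

theorem Hs_der {deg : B → D} (hH : AlgGrp QA H) (hΓ : ∀ j i a b, IsAlgebraic ℚ (Γ j i a b))
    (δ : Derivation ℚ ℂ ℂ) {p : (∀ j, Matrix (N j) (N j) ℂ) × Matrix B B ℂ}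
    (hp : p ∈ Hs Γ deg H) : ((fun j => (p.1 j).map δ), p.2.map δ) ∈ Hs Γ deg H := by
  obtain ⟨h1, h2, s, h3⟩ := hp
  refine ⟨fun j => la_der (hΓ j) δ (h1 j), fun a b hab => ?_, δ s, fun d => ?_⟩
  · change δ (p.2 a b) = 0
    rw [h2 a b hab, map_zero]
  · have h4 := hH.stab_map (Pool.Agent.TH119.DR.derK δ QA fun x hx => mem_QA.1 hx) (h3 d)
    have h5 : (Fm p.1 p.2 s).map (Pool.Agent.TH119.DR.derK δ QA fun x hx => mem_QA.1 hx) = (Fm p.1 p.2 s).map δ := rfl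
    rw [h5, Fm_map] at h4
    exact h4

theorem Hs_log {deg : B → D} (hH : AlgGrp QA H)
    {c : ℂ} (hc : c ≠ 0) {u u' : ∀ j, Matrix (N j) (N j) ℂ} (hu : ∀ j, u j * u' j = 1)
    (hu' : ∀ j, u' j * u j = 1) (hlu : ∀ j, ∀ δ : Derivation ℚ ℂ ℂ, (u j).map δ * u' j ∈ La (Γ j))
    {Q Q' : Matrix B B ℂ} (hQ : Q * Q' = 1) (hQ' : Q' * Q = 1) (hQb : Blk deg Q)
    (hQb' : Blk deg Q')
    {A A' : Matrix ((Σ j, N j) ⊕ B) ((Σ j, N j) ⊕ B) ℂ} (hA : A * A' = 1)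
    (hAa : ∀ i j, A' i j ∈ QA) (hPA : fromBlocks (c • bd u) 0 0 Q * A ∈ H)
    (δ : Derivation ℚ ℂ ℂ) :
    ((fun j => (u j).map δ * u' j), Q.map δ * Q') ∈ Hs Γ deg H := by
  refine ⟨fun j => hlu j δ, ?_, δ c * c⁻¹, fun d => ?_⟩
  · refine Pool.Agent.TH128.KS.Blk.mul (fun a b hab => ?_) hQb'
    rw [Matrix.map_apply, hQb a b hab, map_zero]
  · have g1 : (c • bd u) * (c⁻¹ • bd u') = 1 := by
      rw [Matrix.smul_mul, Matrix.mul_smul, smul_smul, mul_inv_cancel₀ hc, one_smul, ← map_mul]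
      have h1 : u * u' = (1 : ∀ j, Matrix (N j) (N j) ℂ) := funext fun j => hu j
      rw [h1, map_one]
    have g2 : (c⁻¹ • bd u') * (c • bd u) = 1 := by
      rw [Matrix.smul_mul, Matrix.mul_smul, smul_smul, inv_mul_cancel₀ hc, one_smul, ← map_mul]
      have h1 : u' * u = (1 : ∀ j, Matrix (N j) (N j) ℂ) := funext fun j => hu' j
      rw [h1, map_one]
    have e1 : fromBlocks (c • bd u) 0 0 Q * fromBlocks (c⁻¹ • bd u') 0 0 Q' = 1 := by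
      rw [blocks_mul, g1, hQ, fromBlocks_one]
    have e2 : fromBlocks (c⁻¹ • bd u') 0 0 Q' * fromBlocks (c • bd u) 0 0 Q = 1 := by
      rw [blocks_mul, g2, hQ', fromBlocks_one]
    have h1 := hH.stab_der le_rfl (fun x hx => mem_QA.1 hx) e1 e2 hA hAa hPA (d := d) δ
    rw [blocks_map, blocks_mul, log_eq hc u u' hu δ] at h1
    exact h1

theorem sing_br {j : J} (x : ∀ j, Matrix (N j) (N j) ℂ) (Y : Matrix (N j) (N j) ℂ) :
    x * (Pi.single j Y : ∀ j, Matrix (N j) (N j) ℂ) - (Pi.single j Y : ∀ j, Matrix (N j) (N j) ℂ) * x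
      = Pi.single j (x j * Y - Y * x j) := by
  funext i
  by_cases hij : i = j
  · subst hij
    rw [Pi.sub_apply, Pi.mul_apply, Pi.mul_apply, Pi.single_eq_same, Pi.single_eq_same]
  · rw [Pi.sub_apply, Pi.mul_apply, Pi.mul_apply, Pi.single_eq_of_ne hij,
      Pi.single_eq_of_ne hij, Matrix.mul_zero, Matrix.zero_mul, sub_zero]

theorem sing_La {j : J} {Z : Matrix (N j) (N j) ℂ} (hZ : Z ∈ La (Γ j)) (i : J) :
    (Pi.single j Z : ∀ j, Matrix (N j) (N j) ℂ) i ∈ La (Γ i) := by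
  by_cases hij : i = j
  · subst hij
    rw [Pi.single_eq_same]
    exact hZ
  · rw [Pi.single_eq_of_ne hij]
    exact Submodule.zero_mem _

/-- The elements of one factor which lie in the Lie algebra. -/
def Us (Γ : ∀ j, Fin (n j) → Matrix (N j) (N j) ℂ)
    (H : Set (Matrix ((Σ j, N j) ⊕ B) ((Σ j, N j) ⊕ B) ℂ)) (j : J) :
    Submodule ℂ (Matrix (N j) (N j) ℂ) where
  carrier := {Z | Z ∈ La (Γ j) ∧ ∀ d, Stab H d (Fm (Pi.single j Z) (0 : Matrix B B ℂ) 0)}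
  zero_mem' := ⟨Submodule.zero_mem _, fun d => by
    rw [Pi.single_zero, Fm_zero]
    exact Stab.zero⟩
  add_mem' := by
    rintro X Z ⟨h1, h2⟩ ⟨h6, h7⟩
    refine ⟨Submodule.add_mem _ h1 h6, fun d => ?_⟩
    have h9 := (h2 d).add (h7 d)
    rwa [← Fm_add, ← Pi.single_add, add_zero, add_zero] at h9
  smul_mem' := by
    rintro a X ⟨h1, h2⟩
    refine ⟨Submodule.smul_mem _ _ h1, fun d => ?_⟩
    have h9 := (h2 d).smul a
    rwa [← Fm_smul, ← Pi.single_smul, smul_zero, mul_zero] at h9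

theorem mem_Us {j : J} {Z : Matrix (N j) (N j) ℂ} : Z ∈ Us Γ H j ↔ Z ∈ La (Γ j) ∧
    ∀ d, Stab H d (Fm (Pi.single j Z) (0 : Matrix B B ℂ) 0) := Iff.rfl

theorem Us_br {deg : B → D} (hcl : ∀ j, Cl (Γ j)) {x : ∀ j, Matrix (N j) (N j) ℂ}
    (hx : (x, (0 : Matrix B B ℂ)) ∈ Hs Γ deg H) {j : J} {Y : Matrix (N j) (N j) ℂ}
    {z : Matrix B B ℂ} (hY : Y ∈ La (Γ j))
    (hz : ((Pi.single j Y : ∀ j, Matrix (N j) (N j) ℂ), z) ∈ Hs Γ deg H) :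
    x j * Y - Y * x j ∈ Us Γ H j := by
  obtain ⟨h1, h2, s, h3⟩ := mem_Hs.1 hx
  obtain ⟨h4, h5, t, h6⟩ := mem_Hs.1 hz
  refine mem_Us.2 ⟨(hcl j).la_br (h1 j) hY, fun d => ?_⟩
  have h7 := (h3 d).comm (h6 d)
  have h8 := Fm_br x (Pi.single j Y : ∀ j, Matrix (N j) (N j) ℂ) (0 : Matrix B B ℂ) z s t
  rw [sing_br, Matrix.zero_mul, Matrix.mul_zero, sub_zero] at h8
  rw [← h8]
  exact h7

/-- There is no center. -/
theorem no_center {N₁ : Type} [Fintype N₁] [DecidableEq N₁] [Nonempty N₁] {n₁ : ℕ}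
    {Γ : Fin n₁ → Matrix N₁ N₁ ℂ} (h : Cl Γ) (h3 : 3 ≤ n₁) (h4 : n₁ ≠ 4) {x : Matrix N₁ N₁ ℂ}
    (hx : x ∈ La Γ) (hx0 : x ≠ 0) : ∃ Y ∈ La Γ, x * Y - Y * x ≠ 0 := by
  by_contra hcon
  push Not at hcon
  obtain ⟨X, hX, W, hW', hXW⟩ := h.la_noncomm h3
  have hc1 := h.la_simple h3 h4 (Y := x) (U :=
    { carrier := {Z | Z ∈ La Γ ∧ ∀ Y ∈ La Γ, Z * Y - Y * Z = 0}
      zero_mem' := ⟨Submodule.zero_mem _, fun Y _ => by
        rw [Matrix.zero_mul, Matrix.mul_zero, sub_zero]⟩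
      add_mem' := by
        rintro X Z ⟨h1, h2⟩ ⟨h6, h7⟩
        refine ⟨Submodule.add_mem _ h1 h6, fun Y hY => ?_⟩
        rw [Matrix.add_mul, Matrix.mul_add, add_sub_add_comm, h2 Y hY, h7 Y hY, add_zero]
      smul_mem' := by
        rintro a X ⟨h1, h2⟩
        refine ⟨Submodule.smul_mem _ _ h1, fun Y hY => ?_⟩
        rw [Matrix.smul_mul, Matrix.mul_smul, ← smul_sub, h2 Y hY, smul_zero] })
    (fun Z hZ => hZ.1) (by
      rintro X hX Z ⟨hZ, hZ2⟩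
      have h6 : X * Z - Z * X = 0 := by
        rw [← neg_sub, hZ2 X hX, neg_zero]
      rw [h6]
      exact Submodule.zero_mem _)
    ⟨hx, hcon⟩ hx0
  exact hXW ((hc1 hX).2 W hW')

/-- **The main lemma.** -/
theorem stab_all (hcl : ∀ j, Cl (Γ j)) (h3 : ∀ j, 3 ≤ n j) (h4 : ∀ j, n j ≠ 4)
    (h5 : ∀ j, n j ≠ 5) (h8 : ∀ i j, i ≠ j → ¬(n i = 8 ∧ n j = 8))
    (hΓ : ∀ j i a b, IsAlgebraic ℚ (Γ j i a b)) (hH : AlgGrp QA H)
    {c : ℂ} (hc : c ≠ 0) {u u' : ∀ j, Matrix (N j) (N j) ℂ} (hu : ∀ j, u j * u' j = 1)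
    (hu' : ∀ j, u' j * u j = 1) (hE : ∀ j, u j ∈ Ev (Γ j))
    (hlu : ∀ j, ∀ δ : Derivation ℚ ℂ ℂ, (u j).map δ * u' j ∈ La (Γ j))
    (hW : Wu Γ fun j => c • u j) {deg : B → D}
    {Q Q' : Matrix B B ℂ} (hQ : Q * Q' = 1) (hQ' : Q' * Q = 1) (hQb : Blk deg Q)
    (hQb' : Blk deg Q')
    {A A' : Matrix ((Σ j, N j) ⊕ B) ((Σ j, N j) ⊕ B) ℂ} (hA : A * A' = 1)
    (hAa : ∀ i j, A' i j ∈ QA) (hPA : fromBlocks (c • bd u) 0 0 Q * A ∈ H) {j : J}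
    (hne : ¬ Exc (Γ j) (u j) (u' j) deg Q Q') :
    ∀ Z ∈ La (Γ j), ∀ d, Stab H d (fromBlocks (bd (Pi.single j Z)) 0 0 (0 : Matrix B B ℂ)) := by
  have hlog := Hs_log (Γ := Γ) (deg := deg) hH hc hu hu' hlu hQ hQ' hQb hQb' hA hAa hPA
  have hfull : ∀ x : ∀ j, Matrix (N j) (N j) ℂ, (∀ j, x j ∈ La (Γ j)) →
      ∃ z, (x, z) ∈ Hs Γ deg H := by
    intro x hx
    obtain ⟨p, hp, hpx⟩ := full hcl h3 h4 h5 h8 hΓ hc hu hu' hE hW
      (l := (Hs Γ deg H).map (LinearMap.fst ℂ _ _)) (by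
        rintro _ ⟨p, hp, rfl⟩ j
        exact hp.1 j) (by
        rintro _ ⟨p, hp, rfl⟩ _ ⟨q, hq, rfl⟩
        exact ⟨p * q - q * p, (Hs_br hcl hp hq).1, rfl⟩) (by
        rintro δ _ ⟨p, hp, rfl⟩
        exact ⟨_, Hs_der hH hΓ δ hp, rfl⟩)
      (fun δ => ⟨_, hlog δ, rfl⟩) x hx
    refine ⟨p.2, ?_⟩
    have h6 : p.1 = x := hpx
    rw [← h6]
    exact hp
  -- an element with trivial second component
  obtain ⟨p, hp, hp2, hpj⟩ : ∃ p ∈ Hs Γ deg H, p.2 = 0 ∧ p.1 j ≠ 0 := by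
    by_contra hcon
    push Not at hcon
    apply hne
    refine ⟨(Hs Γ deg H).map ((LinearMap.proj j ∘ₗ LinearMap.fst ℂ _ _).prod
      (LinearMap.snd ℂ _ _)), ?_, ?_, ?_, ?_, ?_⟩
    · rintro _ ⟨p, hp, rfl⟩
      exact ⟨hp.1 j, hp.2.1⟩
    · rintro _ ⟨p, hp, rfl⟩ _ ⟨q, hq, rfl⟩
      exact ⟨p * q - q * p, (Hs_br hcl hp hq).1, rfl⟩
    · rintro δ _ ⟨p, hp, rfl⟩
      exact ⟨_, Hs_der hH hΓ δ hp, rfl⟩
    · intro δ
      exact ⟨_, hlog δ, rfl⟩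
    · rintro _ ⟨p, hp, rfl⟩ h0
      exact hcon p hp h0
  obtain ⟨x, z⟩ := p
  obtain rfl : z = 0 := hp2
  obtain ⟨Y, hY, hY0⟩ := no_center (hcl j) (h3 j) (h4 j) (hp.1 j) hpj
  obtain ⟨w, hw⟩ := hfull (Pi.single j Y) (sing_La hY)
  have hmain := (hcl j).la_simple (h3 j) (h4 j) (U := Us Γ H j) (fun Z hZ => (mem_Us.1 hZ).1)
    (fun X hX Z hZ => by
      have h6 : ((Pi.single j Z : ∀ j, Matrix (N j) (N j) ℂ), (0 : Matrix B B ℂ)) ∈
          Hs Γ deg H := ⟨sing_La (mem_Us.1 hZ).1, fun _ _ _ => rfl, 0, (mem_Us.1 hZ).2⟩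
      obtain ⟨w', hw'⟩ := hfull (Pi.single j X) (sing_La hX)
      have h7 := Us_br hcl h6 hX hw'
      rw [Pi.single_eq_same] at h7
      have h9 := (Us Γ H j).neg_mem h7
      rwa [neg_sub] at h9) (Us_br hcl hp hY hw) hY0
  intro Z hZ d
  have h6 := (mem_Us.1 (hmain hZ)).2 d
  unfold Fm at h6
  rwa [zero_smul, add_zero] at h6

end Pool.Agent.TH128.KZ
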